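import Mathlib
import Pool.Agent.Helper89.TG.Stage

/-!
One step of the reduction of a labelled graph with one negative edge: the inequalities for the
edges on the side of the path.
-/

set_option autoImplicit false

namespace Pool.Agent.Helper89.TG

open Pool.Agent.Helper42.Th Pool.Agent.Helper31.T3 Pool.Agent.Helper31.CUT
open Pool.Agent.Helper42.T5

variable {E : Type} {J : Type*} [LinearOrder J]

/-- The data of a step: the path `y`, `c` and the set `K` of the other darts. -/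
structure Mv (Γ : CMap E) (δ : E) (h g : E → J ≃o J) (U V H : Set E) (α β ρ lam : J ≃o J)
    (Z : Set E) (y c : E) (A K : Set E) : Prop where
  st : Stage Γ δ h g U V H α β ρ lam Z
  pth : Pth Γ δ y c U V A
  yH : y ∈ H
  cH : c ∈ H
  sy : Sq Γ h g y
  sc : Sq Γ h g c
  hy : Γ.flip y ∉ V
  hc : c ∉ U
  KH : ∀ e ∈ K, e ∈ H
  alt : ∀ S : Set E, (∀ d, Γ.rot d ∈ S ↔ d ∈ S) → (∀ d ∈ U, d ∈ S) → (∀ d ∈ V, d ∉ S) →
    ∃ e ∈ K, Cut Γ S e ∧ e ≠ y ∧ e ≠ c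

/-- The other darts are on the left side. -/
def OnL (Γ : CMap E) (y c : E) (A K : Set E) : Prop :=
  ∀ e ∈ K, e ≠ y → e ≠ c → e ∉ A ∧ Γ.flip e ∉ A

/-- The other darts are on the right side. -/
def OnR (Γ : CMap E) (y c : E) (A K : Set E) : Prop :=
  ∀ e ∈ K, e ≠ y → e ≠ c → e ∈ A ∧ Γ.flip e ∈ A

namespace Mv

variable {Γ : CMap E} {δ : E} {h g : E → J ≃o J} {U V H : Set E} {α β ρ lam : J ≃o J} {Z : Set E}
  {y c : E} {A K : Set E} (M : Mv Γ δ h g U V H α β ρ lam Z y c A K)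
include M

lemma hx (t : J) : h (Γ.flip y) t = h c t :=
  (same_eq (f := fun d => h d t) (M.st.harm t).f_rot M.pth.mid).symm

lemma gy : ∃ τ : J ≃o J, (∀ t, α t ≤ τ t) ∧ (y ∉ Z → ∀ t, α t < τ t) ∧ (∀ t, τ t ≤ h y t) ∧
    (∀ t s, h c s < α s → h c s ≤ τ t → ρ s ≤ g y t) ∧
    ∀ t s, h c t < α t → h c s ≤ τ t → g (Γ.flip y) s ≤ lam t := by
  obtain ⟨τ, σ, G, hst⟩ := M.st.w1 y M.yH M.sy
  have live : ∀ s, h c s < α s → Live Γ h α β y s := fun s hs =>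
    ⟨(M.hx s).trans_lt (hs.trans_le (M.st.hU _ M.pth.first s)), (M.hx s).trans_lt hs,
      (M.st.lt s).trans_le (M.st.hU _ M.pth.first s)⟩
  refine ⟨τ, G.τ_ge M.pth.first, fun hz => hst hz M.pth.first, G.τ_le, ?_, ?_⟩
  · intro t s h1 h2
    exact G.w1 t s (live s h1) (((G.σ_eq M.hy s).trans (M.hx s)).trans_le h2)
  · intro t s h1 h2
    exact G.w2 t s (live t h1) (((G.σ_eq M.hy s).trans (M.hx s)).trans_le h2)

lemma gc : ∃ σ : J ≃o J, (∀ s, σ s ≤ β s) ∧ (∀ s, h (Γ.flip c) s ≤ σ s) ∧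
    (∀ t s, β s < h c s → σ s ≤ h c t → ρ s ≤ g c t) ∧
    ∀ t s, β t < h c t → σ s ≤ h c t → g (Γ.flip c) s ≤ lam t := by
  obtain ⟨τ, σ, G, -⟩ := M.st.w1 c M.cH M.sc
  have live : ∀ s, β s < h c s → Live Γ h α β c s := fun s hs =>
    ⟨(M.st.hV _ M.pth.last s).trans_lt hs, (M.st.hV _ M.pth.last s).trans_lt (M.st.lt s), hs⟩
  refine ⟨σ, G.σ_le M.pth.last, G.le_σ, ?_, ?_⟩
  · intro t s h1 h2
    exact G.w1 t s (live s h1) (h2.trans_eq (G.τ_eq M.hc t).symm)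
  · intro t s h1 h2
    exact G.w2 t s (live t h1) (h2.trans_eq (G.τ_eq M.hc t).symm)

/-- The inequality of the label of `y` at the times when `c` is not higher than `α`. -/
lemma y1 (nd : ∀ t, h c t < α t) {t s : J} (hs : h c s = α t) : ρ s ≤ g y t := by
  obtain ⟨τ, h1, -, -, h2, -⟩ := M.gy
  exact h2 t s (nd s) (hs.trans_le (h1 t))

lemma y2 (nd : ∀ t, h c t < α t) {t s : J} (hs : h c s = α t) : g (Γ.flip y) s ≤ lam t := by
  obtain ⟨τ, h1, -, -, -, h2⟩ := M.gy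
  exact h2 t s (nd t) (hs.trans_le (h1 t))

lemma c1 (nd : ∀ t, β t < h c t) {t s : J} (hs : β s = h c t) : ρ s ≤ g c t := by
  obtain ⟨σ, h1, -, h2, -⟩ := M.gc
  exact h2 t s (nd s) ((h1 s).trans hs.le)

lemma c2 (nd : ∀ t, β t < h c t) {t s : J} (hs : β s = h c t) : g (Γ.flip c) s ≤ lam t := by
  obtain ⟨σ, h1, -, -, h2⟩ := M.gc
  exact h2 t s (nd t) ((h1 s).trans hs.le)

variable [Finite E]

/-- At a level between `β t` and `α t`, on the left side. -/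
lemma sideL (hK : OnL Γ y c A K) {e : E} (he : e ∈ K) (h1 : e ≠ y) (h2 : e ≠ c) {t ℓ : J}
    (hℓ1 : β t ≤ ℓ) (hℓ2 : ℓ < α t) (he1 : h (Γ.flip e) t ≤ ℓ) (he2 : ℓ < h e t) :
    (ℓ < h c t → g c t ≤ g (Γ.flip e) t) ∧ (h c t ≤ ℓ → g y t ≤ g (Γ.flip e) t) := by
  have L := lev1 M.st hℓ1 hℓ2
  obtain ⟨k1, k2⟩ := right_of M.st M.pth L (fun d hd => hℓ2.trans_le (M.st.hU d hd t))
    (fun d hd hd' => absurd (hd' : ℓ < h d t) (not_lt.mpr ((M.st.hV d hd t).trans hℓ1)))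
    (e := e) ⟨he2, not_lt.mpr he1⟩ (he1.trans_lt he2) (hK e he h1 h2)
  exact ⟨k1, fun h3 => k2 (not_lt.mpr h3)⟩

lemma sideL' (hK : OnL Γ y c A K) {e : E} (he : e ∈ K) (h1 : e ≠ y) (h2 : e ≠ c) {t ℓ : J}
    (hℓ1 : β t < ℓ) (hℓ2 : ℓ ≤ α t) (he1 : h (Γ.flip e) t < ℓ) (he2 : ℓ ≤ h e t) :
    (ℓ ≤ h c t → g c t ≤ g (Γ.flip e) t) ∧ (h c t < ℓ → g y t ≤ g (Γ.flip e) t) := by
  have L := lev2 M.st hℓ1 hℓ2
  obtain ⟨k1, k2⟩ := right_of M.st M.pth L (fun d hd => hℓ2.trans (M.st.hU d hd t))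
    (fun d hd hd' => absurd (hd' : ℓ ≤ h d t) (not_le.mpr ((M.st.hV d hd t).trans_lt hℓ1)))
    (e := e) ⟨he2, not_le.mpr he1⟩ (he1.trans_le he2) (hK e he h1 h2)
  exact ⟨k1, fun h3 => k2 (not_le.mpr h3)⟩

/-- At a level between `β t` and `α t`, on the right side. -/
lemma sideR (hK : OnR Γ y c A K) {e : E} (he : e ∈ K) (h1 : e ≠ y) (h2 : e ≠ c) {t ℓ : J}
    (hℓ1 : β t ≤ ℓ) (hℓ2 : ℓ < α t) (he1 : h (Γ.flip e) t ≤ ℓ) (he2 : ℓ < h e t) :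
    (ℓ < h c t → g e t ≤ g (Γ.flip c) t) ∧ (h c t ≤ ℓ → g e t ≤ g (Γ.flip y) t) := by
  have L := lev1 M.st hℓ1 hℓ2
  obtain ⟨k1, k2⟩ := left_of M.st M.pth L (fun d hd => hℓ2.trans_le (M.st.hU d hd t))
    (fun d hd hd' => absurd (hd' : ℓ < h d t) (not_lt.mpr ((M.st.hV d hd t).trans hℓ1)))
    (e := e) ⟨he2, not_lt.mpr he1⟩ (he1.trans_lt he2) (hK e he h1 h2)
  exact ⟨k1, fun h3 => k2 (not_lt.mpr h3)⟩

/-- Another dart crosses the level. -/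
lemma alt1 {t ℓ : J} (hℓ1 : β t ≤ ℓ) (hℓ2 : ℓ < α t) :
    ∃ e ∈ K, e ≠ y ∧ e ≠ c ∧ h (Γ.flip e) t ≤ ℓ ∧ ℓ < h e t ∧ Live Γ h α β e t := by
  have L := lev1 M.st hℓ1 hℓ2
  obtain ⟨e, he, ⟨h1, h2⟩, h3, h4⟩ := M.alt _ L.rot (fun d hd => hℓ2.trans_le (M.st.hU d hd t))
    (fun d hd hd' => absurd (hd' : ℓ < h d t) (not_lt.mpr ((M.st.hV d hd t).trans hℓ1)))
  have h5 : ℓ < h e t := h1
  have h6 : h (Γ.flip e) t ≤ ℓ := not_lt.mp h2
  exact ⟨e, he, h3, h4, h6, h5, h6.trans_lt h5, h6.trans_lt hℓ2, hℓ1.trans_lt h5⟩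

lemma alt2 {t ℓ : J} (hℓ1 : β t < ℓ) (hℓ2 : ℓ ≤ α t) :
    ∃ e ∈ K, e ≠ y ∧ e ≠ c ∧ h (Γ.flip e) t < ℓ ∧ ℓ ≤ h e t ∧ Live Γ h α β e t := by
  have L := lev2 M.st hℓ1 hℓ2
  obtain ⟨e, he, ⟨h1, h2⟩, h3, h4⟩ := M.alt _ L.rot (fun d hd => hℓ2.trans (M.st.hU d hd t))
    (fun d hd hd' => absurd (hd' : ℓ ≤ h d t) (not_le.mpr ((M.st.hV d hd t).trans_lt hℓ1)))
  have h5 : ℓ ≤ h e t := h1
  have h6 : h (Γ.flip e) t < ℓ := not_le.mp h2
  exact ⟨e, he, h3, h4, h6, h5, h6.trans_le h5, h6.trans_le hℓ2, hℓ1.trans_le h5⟩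

/-- The middle of the path is lower than the top. -/
lemma ndL1 (hK : OnL Γ y c A K) (t : J) : h c t < α t := by
  by_contra hn
  push Not at hn
  obtain ⟨s, hs⟩ := β.surjective (α t)
  have hts : t < s := by
    rw [← β.lt_iff_lt, hs]
    exact M.st.lt t
  obtain ⟨e, he, h1, h2, h3, h4, h5⟩ := M.alt2 (M.st.lt t) le_rfl
  have h6 := (M.sideL' hK he h1 h2 (M.st.lt t) le_rfl h3 h4).1 hn
  obtain ⟨σ, s1, -, s2, -⟩ := M.gc
  have h7 : ρ s ≤ g c t := by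
    refine s2 t s ?_ (((s1 s).trans hs.le).trans hn)
    rw [hs]
    exact hn.trans_lt ((h c).strictMono hts)
  rw [M.st.link t s hs] at h7
  exact absurd (h7.trans h6) (not_le.mpr (M.st.w0 e (M.KH e he) t h5).2)

lemma ndR1 (hK : OnR Γ y c A K) (t : J) : h c t < α t := by
  by_contra hn
  push Not at hn
  obtain ⟨s, hs⟩ := β.surjective (α t)
  have hts : t < s := by
    rw [← β.lt_iff_lt, hs]
    exact M.st.lt t
  obtain ⟨e, he, h1, h2, h3, h4, h5⟩ := M.alt1 (le_refl (β s)) (M.st.lt s)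
  have h6 := (M.sideR hK he h1 h2 le_rfl (M.st.lt s) h3 h4).1 (by
    rw [hs]
    exact hn.trans_lt ((h c).strictMono hts))
  obtain ⟨σ, s1, -, -, s2⟩ := M.gc
  have h7 : g (Γ.flip c) s ≤ lam t :=
    s2 t s ((M.st.lt t).trans_le hn) (((s1 s).trans hs.le).trans hn)
  rw [← M.st.link t s hs] at h7
  exact absurd (h6.trans h7) (not_le.mpr (M.st.w0 e (M.KH e he) s h5).1)

/-- The middle of the path is higher than the bottom. -/
lemma ndL2 (hK : OnL Γ y c A K) (t : J) : β t < h c t := by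
  by_contra hn
  push Not at hn
  obtain ⟨r, hr⟩ := α.surjective (β t)
  have hrt : r < t := by
    rw [← α.lt_iff_lt, hr]
    exact M.st.lt t
  have h0 : h c r < α r := by
    rw [hr]
    exact ((h c).strictMono hrt).trans_le hn
  obtain ⟨e, he, h1, h2, h3, h4, h5⟩ := M.alt2 (M.st.lt r) le_rfl
  have h6 := (M.sideL' hK he h1 h2 (M.st.lt r) le_rfl h3 h4).2 h0
  obtain ⟨τ, t1, -, -, t2, -⟩ := M.gy
  have h7 : ρ t ≤ g y r := t2 r t (hn.trans_lt (M.st.lt t)) (by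
    refine hn.trans ?_
    rw [← hr]
    exact t1 r)
  rw [M.st.link r t hr.symm] at h7
  exact absurd (h7.trans h6) (not_le.mpr (M.st.w0 e (M.KH e he) r h5).2)

lemma ndR2 (hK : OnR Γ y c A K) (t : J) : β t < h c t := by
  by_contra hn
  push Not at hn
  obtain ⟨r, hr⟩ := α.surjective (β t)
  have hrt : r < t := by
    rw [← α.lt_iff_lt, hr]
    exact M.st.lt t
  have h0 : h c r < α r := by
    rw [hr]
    exact ((h c).strictMono hrt).trans_le hn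
  obtain ⟨e, he, h1, h2, h3, h4, h5⟩ := M.alt1 (le_refl (β t)) (M.st.lt t)
  have h6 := (M.sideR hK he h1 h2 le_rfl (M.st.lt t) h3 h4).2 hn
  obtain ⟨τ, t1, -, -, -, t2⟩ := M.gy
  have h7 : g (Γ.flip y) t ≤ lam r := t2 r t h0 (by
    refine hn.trans ?_
    rw [← hr]
    exact t1 r)
  rw [← M.st.link r t hr.symm] at h7
  exact absurd (h6.trans h7) (not_le.mpr (M.st.w0 e (M.KH e he) t h5).1)

/-- The inequalities for a dart on the left side. -/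
lemma nL (hK : OnL Γ y c A K) {e : E} (he : e ∈ K) (h1 : e ≠ y) (h2 : e ≠ c) {t ℓ : J}
    (hℓ1 : β t ≤ ℓ) (hℓ2 : ℓ < α t) (he1 : h (Γ.flip e) t ≤ ℓ) (he2 : ℓ < h e t) :
    (ℓ < h c t → ∀ q, β q = h c t → ρ q ≤ g (Γ.flip e) t) ∧
      (h c t ≤ ℓ → ∀ p, h c p = α t → ρ p ≤ g (Γ.flip e) t) := by
  obtain ⟨k1, k2⟩ := M.sideL hK he h1 h2 hℓ1 hℓ2 he1 he2
  exact ⟨fun h3 q hq => (M.c1 (M.ndL2 hK) hq).trans (k1 h3),
    fun h3 p hp => (M.y1 (M.ndL1 hK) hp).trans (k2 h3)⟩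

/-- The inequalities for a dart on the right side. -/
lemma nR (hK : OnR Γ y c A K) {e : E} (he : e ∈ K) (h1 : e ≠ y) (h2 : e ≠ c) {t ℓ : J}
    (hℓ1 : β t ≤ ℓ) (hℓ2 : ℓ < α t) (he1 : h (Γ.flip e) t ≤ ℓ) (he2 : ℓ < h e t) :
    (ℓ < h c t → ∀ q, h c q = β t → g e t ≤ lam q) ∧
      (h c t ≤ ℓ → ∀ p, α p = h c t → g e t ≤ lam p) := by
  obtain ⟨k1, k2⟩ := M.sideR hK he h1 h2 hℓ1 hℓ2 he1 he2
  exact ⟨fun h3 q hq => (k1 h3).trans (M.c2 (M.ndR2 hK) hq.symm),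
    fun h3 p hp => (k2 h3).trans (M.y2 (M.ndR1 hK) hp.symm)⟩

end Mv

end Pool.Agent.Helper89.TG
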