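import Mathlib
import Pool.Agent.Helper89.TG.Move

/-!
One step of the reduction of a labelled graph with one negative edge: the height of the new vertex.
-/

set_option autoImplicit false

namespace Pool.Agent.Helper89.TG

open Pool.Agent.Helper42.Th Pool.Agent.Helper31.T3 Pool.Agent.Helper31.CUT
open Pool.Agent.Helper42.T5

variable {E : Type} {J : Type*} [LinearOrder J]

section

variable {Γ : CMap E} {δ : E} {h g : E → J ≃o J} {U V H : Set E} {α β ρ lam : J ≃o J} {Z : Set E}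

lemma steep (St : Stage Γ δ h g U V H α β ρ lam Z) {e : E} (he : e ∈ H) (sq : Sq Γ h g e)
    {t s : J} (hd : h (Γ.flip e) t < h e t ∨ h (Γ.flip e) s < h e s)
    (hs : h (Γ.flip e) s ≤ h e t) : g (Γ.flip e) s ≤ g e t := by
  have key : h (Γ.flip e) t ≤ h e t → g (Γ.flip e) s ≤ g e t := by
    intro h1
    by_contra hn
    push Not at hn
    obtain ⟨s', hs'⟩ := (g (Γ.flip e)).surjective (g e t)
    have h2 : s' < s := by
      rw [← (g (Γ.flip e)).lt_iff_lt, hs']
      exact hn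
    have h3 := sq t s' h1 hs'.ge
    exact absurd (h3.trans_lt ((h (Γ.flip e)).strictMono h2)) (not_lt.mpr hs)
  rcases le_total (h (Γ.flip e) t) (h e t) with h1 | h1
  · exact key h1
  · rcases hd with h2 | h2
    · exact key h2.le
    · have h3 : s ≤ t := by
        rw [← (h (Γ.flip e)).le_iff_le]
        exact hs.trans h1
      have h4 : g (Γ.flip e) s ≤ g e s := (St.harm s).pos e (St.ne e he).1 (St.ne e he).2 h2.le
      exact h4.trans ((g e).monotone h3)

lemma label_lt (St : Stage Γ δ h g U V H α β ρ lam Z) {e : E} (he : e ∈ H) {t : J}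
    (hd : h (Γ.flip e) t < h e t) : g (Γ.flip e) t < g e t := by
  have h1 : g (Γ.flip e) t ≤ g e t := (St.harm t).pos e (St.ne e he).1 (St.ne e he).2 hd.le
  refine lt_of_le_of_ne h1 fun h2 => hd.ne ?_
  exact (St.harm t).str e (St.ne e he).1 (St.ne e he).2 h2

end

/-- The labels of the edges from the top are apart from each other or from the bounds. -/
def Ext (Γ : CMap E) (g : E → J ≃o J) (ρ lam : J ≃o J) (y d : E) : Prop :=
  (∀ t, ρ t < g (Γ.flip y) t) ∨ (∀ t, g y t < g (Γ.flip d) t) ∨ (∀ t, g d t < lam t) ∨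
    ∀ t, g d t ≤ g (Γ.flip y) t

namespace Mv

variable {Γ : CMap E} {δ : E} {h g : E → J ≃o J} {U V H : Set E} {α β ρ lam : J ≃o J} {Z : Set E}
  {y c : E} {A K : Set E} (M : Mv Γ δ h g U V H α β ρ lam Z y c A K) [Finite E]
include M

/-- The dart `d` leads from `U` to the new vertex, and it is on the left side. -/
theorem topL (hK : OnL Γ y c A K) {d : E} (dK : d ∈ K) (h1 : d ≠ y) (h2 : d ≠ c)
    (sd : Sq Γ h g d) (hd : d ∈ U) {t p : J} (hp : h c p = α t) :
    β p ≤ h (Γ.flip d) t ∧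
      (d ∉ Z ∨ y ∉ Z ∨ Ext Γ g ρ lam y d → β p < h (Γ.flip d) t) := by
  have nd1 := M.ndL1 hK
  have nd2 := M.ndL2 hK
  rcases le_or_gt (α t) (h (Γ.flip d) t) with h3 | h3
  · have h4 : β p < h (Γ.flip d) t := ((nd2 p).trans_eq hp).trans_le h3
    exact ⟨h4.le, fun _ => h4⟩
  set m := max (h (Γ.flip d) t) (β t) with hm
  have hmα : m < α t := max_lt h3 (M.st.lt t)
  have htp : t < p := by
    rw [← (h c).lt_iff_lt, hp]
    exact nd1 t
  have hα : α t ≤ h d t := M.st.hU d hd t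
  have k1 := (M.sideL hK dK h1 h2 (ℓ := max m (h c t)) ((le_max_right _ _).trans (le_max_left _ _))
    (max_lt hmα (nd1 t)) ((le_max_left _ _).trans (le_max_left _ _))
    ((max_lt hmα (nd1 t)).trans_le hα)).2 (le_max_right _ _)
  obtain ⟨τ, σ, G, hst⟩ := M.st.w1 d (M.KH d dK) sd
  have hσ : σ t ≤ m := by
    by_cases h4 : Γ.flip d ∈ V
    · exact (G.σ_le h4 t).trans (le_max_right _ _)
    · rw [G.σ_eq h4 t]
      exact le_max_left _ _
  obtain ⟨s₁, hs₁⟩ := α.surjective m
  obtain ⟨s₂, hs₂⟩ := β.surjective m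
  have hl : ρ s₂ = lam s₁ := M.st.link s₁ s₂ (hs₂.trans hs₁.symm)
  have hs₁t : s₁ < t := by
    rw [← α.lt_iff_lt, hs₁]
    exact hmα
  have live : ∀ s, s < t → h (Γ.flip d) s < α s → Live Γ h α β d s := fun s _ hs' =>
    ⟨hs'.trans_le (M.st.hU d hd s), hs', (M.st.lt s).trans_le (M.st.hU d hd s)⟩
  have hlive : h (Γ.flip d) s₁ < α s₁ := by
    rw [hs₁]
    exact ((h (Γ.flip d)).strictMono hs₁t).trans_le (le_max_left _ _)
  have e1 : g (Γ.flip d) t ≤ lam s₁ :=
    G.w2 s₁ t (live s₁ hs₁t hlive) (hσ.trans (hs₁.ge.trans (G.τ_ge hd s₁)))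
  have e2 : ρ p ≤ g y t := M.y1 nd1 hp
  have hβ : β t < β p := β.strictMono htp
  have fin1 : β p ≤ m → β p ≤ h (Γ.flip d) t := fun h4 => by
    rcases le_max_iff.mp h4 with h5 | h5
    · exact h5
    · exact absurd h5 (not_le.mpr hβ)
  have fin2 : β p < m → β p < h (Γ.flip d) t := fun h4 => by
    rcases lt_max_iff.mp h4 with h5 | h5
    · exact h5
    · exact absurd h5.le (not_le.mpr hβ)
  have toβ : ∀ {x}, x ≤ s₂ → β x ≤ m := fun hx => (β.monotone hx).trans_eq hs₂
  have toβ' : ∀ {x}, x < s₂ → β x < m := fun hx => (β.strictMono hx).trans_eq hs₂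
  constructor
  · apply fin1
    apply toβ
    rw [← ρ.le_iff_le, hl]
    exact e2.trans (k1.trans e1)
  · intro hz
    apply fin2
    apply toβ'
    rw [← ρ.lt_iff_lt, hl]
    rcases hz with hz | hz | hz | hz | hz | hz
    · have h4 : m < τ s₁ := by
        rw [← hs₁]
        exact hst hz hd s₁
      obtain ⟨x, hx⟩ := τ.surjective m
      obtain ⟨x', hx'⟩ := α.surjective (h (Γ.flip d) s₁)
      have hxs : max x x' < s₁ := by
        apply max_lt
        · rw [← τ.lt_iff_lt, hx]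
          exact h4
        · rw [← α.lt_iff_lt, hx']
          exact hlive
      have e3 : g (Γ.flip d) t ≤ lam (max x x') := by
        refine G.w2 _ t (live _ (hxs.trans hs₁t) ?_) (hσ.trans ?_)
        · refine ((h (Γ.flip d)).strictMono hxs).trans_le ?_
          rw [← hx']
          exact α.monotone (le_max_right _ _)
        · rw [← hx]
          exact τ.monotone (le_max_left _ _)
      exact (e2.trans (k1.trans e3)).trans_lt (lam.strictMono hxs)
    · obtain ⟨τ', t1, t2, t3, t4, -⟩ := M.gy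
      obtain ⟨p', hp'⟩ := (h c).surjective (τ' t)
      have hpp : p < p' := by
        rw [← (h c).lt_iff_lt, hp, hp']
        exact t2 hz t
      have e3 : ρ p' ≤ g y t := t4 t p' (nd1 p') hp'.le
      exact (ρ.strictMono hpp).trans_le (e3.trans (k1.trans e1))
    · have h4 : h (Γ.flip y) t < h y t := by
        rw [M.hx]
        exact (nd1 t).trans_le (M.st.hU _ M.pth.first t)
      have e3 : g (Γ.flip y) p ≤ g y t := steep M.st M.yH M.sy (Or.inl h4) (by
        rw [M.hx, hp]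
        exact M.st.hU _ M.pth.first t)
      exact (hz p).trans_le (e3.trans (k1.trans e1))
    · exact e2.trans_lt ((hz t).trans_le e1)
    · have e3 : g (Γ.flip d) t ≤ g d s₁ := steep M.st (M.KH d dK) sd (Or.inr (h3.trans_le hα))
        ((G.le_σ t).trans (hσ.trans (hs₁.ge.trans (M.st.hU d hd s₁))))
      exact e2.trans_lt (k1.trans_lt (e3.trans_lt (hz s₁)))
    · have h4 := label_lt M.st (M.KH d dK) (h3.trans_le hα)
      have h5 : h (Γ.flip y) t < h y t := by
        rw [M.hx]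
        exact (nd1 t).trans_le (M.st.hU _ M.pth.first t)
      exact absurd (h4.trans_le ((hz t).trans ((label_lt M.st M.yH h5).le.trans k1)))
        (lt_irrefl _)

/-- The dart `d` leads from `U` to the new vertex, and it is on the right side. -/
theorem topR (hK : OnR Γ y c A K) {d : E} (dK : d ∈ K) (h1 : d ≠ y) (h2 : d ≠ c)
    (sd : Sq Γ h g d) (hd : d ∈ U) {t q : J} (hq : h c q = β t) :
    α q ≤ h (Γ.flip d) t ∧
      (d ∉ Z ∨ y ∉ Z ∨ Ext Γ g ρ lam d y → α q < h (Γ.flip d) t) := by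
  have nd1 := M.ndR1 hK
  have nd2 := M.ndR2 hK
  have hqt : q < t := by
    rw [← (h c).lt_iff_lt, hq]
    exact nd2 t
  rcases le_or_gt (α q) (h (Γ.flip d) q) with h3 | h3
  · have h4 : α q < h (Γ.flip d) t := h3.trans_lt ((h (Γ.flip d)).strictMono hqt)
    exact ⟨h4.le, fun _ => h4⟩
  have hα : α q ≤ h d q := M.st.hU d hd q
  have hℓ : max (max (h (Γ.flip d) q) (β q)) (h c q) < α q :=
    max_lt (max_lt h3 (M.st.lt q)) (nd1 q)
  have k1 := (M.sideR hK dK h1 h2 ((le_max_right _ _).trans (le_max_left _ _)) hℓ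
    ((le_max_left _ _).trans (le_max_left _ _)) (hℓ.trans_le hα)).2 (le_max_right _ _)
  obtain ⟨τ, σ, G, hst⟩ := M.st.w1 d (M.KH d dK) sd
  obtain ⟨s₀, hs₀⟩ := α.surjective (h c q)
  have hl : ρ t = lam s₀ := M.st.link s₀ t (hq.symm.trans hs₀.symm)
  have e1 : g (Γ.flip y) q ≤ lam s₀ := M.y2 nd1 hs₀.symm
  -- the times when the end of `d` and the bottom are at the height `v`
  have sol : ∀ v, α q ≤ v → ∃ s, q < s ∧ h (Γ.flip d) s ≤ v ∧ β s ≤ v ∧
      (h (Γ.flip d) s = v ∨ β s = v) := by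
    intro v hv
    obtain ⟨x, hx⟩ := (h (Γ.flip d)).surjective v
    obtain ⟨x', hx'⟩ := β.surjective v
    have hqx : q < x := by
      rw [← (h (Γ.flip d)).lt_iff_lt, hx]
      exact h3.trans_le hv
    have hqx' : q < x' := by
      rw [← β.lt_iff_lt, hx']
      exact (M.st.lt q).trans_le hv
    refine ⟨min x x', lt_min hqx hqx', ?_, ?_, ?_⟩
    · rw [← hx]
      exact (h (Γ.flip d)).monotone (min_le_left _ _)
    · rw [← hx']
      exact β.monotone (min_le_right _ _)
    · rcases le_total x x' with h5 | h5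
      · rw [min_eq_left h5]
        exact Or.inl hx
      · rw [min_eq_right h5]
        exact Or.inr hx'
  have hσ : ∀ {s v}, h (Γ.flip d) s ≤ v → β s ≤ v → σ s ≤ v := by
    intro s v h5 h6
    by_cases h4 : Γ.flip d ∈ V
    · exact (G.σ_le h4 s).trans h6
    · rw [G.σ_eq h4 s]
      exact h5
  have live : ∀ s, h (Γ.flip d) s < α s → Live Γ h α β d s := fun s hs' =>
    ⟨hs'.trans_le (M.st.hU d hd s), hs', (M.st.lt s).trans_le (M.st.hU d hd s)⟩
  obtain ⟨s₁, hs1, hs2, hs3, hs4⟩ := sol (α q) le_rfl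
  have e2 : ρ s₁ ≤ g d q :=
    G.w1 q s₁ (live s₁ (hs2.trans_lt (α.strictMono hs1))) ((hσ hs2 hs3).trans (G.τ_ge hd q))
  have hβ : β t < α q := by
    rw [← hq]
    exact nd1 q
  have fin1 : s₁ ≤ t → α q ≤ h (Γ.flip d) t := by
    intro h5
    rcases hs4 with h6 | h6
    · rw [← h6]
      exact (h (Γ.flip d)).monotone h5
    · exact absurd (h6.symm.trans_le (β.monotone h5)) (not_le.mpr hβ)
  have fin2 : s₁ < t → α q < h (Γ.flip d) t := by
    intro h5
    rcases hs4 with h6 | h6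
    · rw [← h6]
      exact (h (Γ.flip d)).strictMono h5
    · exact absurd (h6.symm.trans_lt (β.strictMono h5)).le (not_le.mpr hβ)
  constructor
  · apply fin1
    rw [← ρ.le_iff_le, hl]
    exact e2.trans (k1.trans e1)
  · intro hz
    apply fin2
    rcases hz with hz | hz | hz | hz | hz | hz
    · have h4 : α q < min (τ q) (α s₁) := lt_min (hst hz hd q) (α.strictMono hs1)
      obtain ⟨s', k2, k3, k4, k5⟩ := sol _ h4.le
      have h6 : s₁ < s' := by
        rcases k5 with k5 | k5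
        · rw [← (h (Γ.flip d)).lt_iff_lt, k5]
          exact hs2.trans_lt h4
        · rw [← β.lt_iff_lt, k5]
          exact hs3.trans_lt h4
      have e3 : ρ s' ≤ g d q := by
        refine G.w1 q s' (live s' ?_) ((hσ k3 k4).trans (min_le_left _ _))
        exact (k3.trans (min_le_right _ _)).trans_lt (α.strictMono h6)
      refine h6.trans_le ?_
      rw [← ρ.le_iff_le, hl]
      exact e3.trans (k1.trans e1)
    · obtain ⟨τ', t1, t2, t3, -, t4⟩ := M.gy
      obtain ⟨s', hs'⟩ := τ'.surjective (h c q)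
      have h6 : s' < s₀ := by
        rw [← τ'.lt_iff_lt, hs', ← hs₀]
        exact t2 hz s₀
      have e3 : g (Γ.flip y) q ≤ lam s' := t4 s' q (nd1 s') hs'.ge
      rw [← ρ.lt_iff_lt, hl]
      exact (e2.trans (k1.trans e3)).trans_lt (lam.strictMono h6)
    · have e3 : g (Γ.flip d) s₁ ≤ g d q := steep M.st (M.KH d dK) sd (Or.inl (h3.trans_le hα))
        (hs2.trans hα)
      rw [← ρ.lt_iff_lt, hl]
      exact (hz s₁).trans_le (e3.trans (k1.trans e1))
    · rw [← ρ.lt_iff_lt, hl]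
      exact e2.trans_lt ((hz q).trans_le e1)
    · have h4 : h (Γ.flip y) q < h y q := by
        rw [M.hx]
        exact (nd1 q).trans_le (M.st.hU _ M.pth.first q)
      have e3 : g (Γ.flip y) q ≤ g y s₀ := steep M.st M.yH M.sy (Or.inr h4) (by
        rw [M.hx, ← hs₀]
        exact M.st.hU _ M.pth.first s₀)
      rw [← ρ.lt_iff_lt, hl]
      exact e2.trans_lt (k1.trans_lt (e3.trans_lt (hz s₀)))
    · have h4 := label_lt M.st (M.KH d dK) (h3.trans_le hα)
      have h5 : h (Γ.flip y) q < h y q := by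
        rw [M.hx]
        exact (nd1 q).trans_le (M.st.hU _ M.pth.first q)
      exact absurd (h4.trans_le (k1.trans ((label_lt M.st M.yH h5).le.trans (hz q))))
        (lt_irrefl _)

/-- The dart `d` leads from the new vertex to `V`, and it is on the left side. -/
theorem botL (hK : OnL Γ y c A K) {d : E} (dK : d ∈ K) (h1 : d ≠ y) (h2 : d ≠ c)
    (sd : Sq Γ h g d) (hd : Γ.flip d ∈ V) {t p : J} (hp : h c p = α t) : h d t ≤ β p := by
  have nd1 := M.ndL1 hK
  have nd2 := M.ndL2 hK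
  by_contra hn
  push Not at hn
  have htp : t < p := by
    rw [← (h c).lt_iff_lt, hp]
    exact nd1 t
  have hdp : β p < h d p := hn.trans ((h d).strictMono htp)
  have k1 := (M.sideL hK dK h1 h2 (le_refl (β p)) (M.st.lt p) (M.st.hV _ hd p) hdp).1 (nd2 p)
  obtain ⟨s₁, hs₁⟩ := β.surjective (h c p)
  have e1 : ρ s₁ ≤ g c p := M.c1 nd2 hs₁
  obtain ⟨τ, σ, G, -⟩ := M.st.w1 d (M.KH d dK) sd
  obtain ⟨x, hx⟩ := (h d).surjective (β p)
  obtain ⟨x', hx'⟩ := α.surjective (β p)
  have hx1 : x < p := by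
    rw [← (h d).lt_iff_lt, hx]
    exact hdp
  have hx2 : x' < p := by
    rw [← α.lt_iff_lt, hx']
    exact M.st.lt p
  set s₀ := max x x' with hs₀
  have hs₀p : s₀ < p := max_lt hx1 hx2
  have f1 : β p ≤ h d s₀ := by
    rw [← hx]
    exact (h d).monotone (le_max_left _ _)
  have f2 : β p ≤ α s₀ := by
    rw [← hx']
    exact α.monotone (le_max_right _ _)
  have f3 : β s₀ < β p := β.strictMono hs₀p
  have f4 : h (Γ.flip d) s₀ < β p := (M.st.hV _ hd s₀).trans_lt f3
  have f5 : β p ≤ τ s₀ := by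
    by_cases h4 : d ∈ U
    · exact f2.trans (G.τ_ge h4 s₀)
    · rw [G.τ_eq h4]
      exact f1
  have e2 : g (Γ.flip d) p ≤ lam s₀ :=
    G.w2 s₀ p ⟨f4.trans_le f1, f4.trans_le f2, f3.trans_le f1⟩ ((G.σ_le hd p).trans f5)
  obtain ⟨s₂, hs₂⟩ := β.surjective (α s₀)
  have h5 : s₁ ≤ s₂ := by
    rw [← ρ.le_iff_le, M.st.link s₀ s₂ hs₂]
    exact e1.trans (k1.trans e2)
  have h6 : h c p ≤ α s₀ := by
    rw [← hs₁, ← hs₂]
    exact β.monotone h5
  rw [hp, α.le_iff_le] at h6
  rcases le_max_iff.mp h6 with h7 | h7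
  · exact absurd (((h d).monotone h7).trans_eq hx) (not_le.mpr hn)
  · have h8 := (α.monotone h7).trans_eq hx'
    rw [← hp] at h8
    exact absurd h8 (not_le.mpr (nd2 p))

/-- The dart `d` leads from the new vertex to `V`, and it is on the right side. -/
theorem botR (hK : OnR Γ y c A K) {d : E} (dK : d ∈ K) (h1 : d ≠ y) (h2 : d ≠ c)
    (sd : Sq Γ h g d) (hd : Γ.flip d ∈ V) {t q : J} (hq : h c q = β t) : h d t ≤ α q := by
  have nd1 := M.ndR1 hK
  have nd2 := M.ndR2 hK
  by_contra hn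
  push Not at hn
  have hqt : q < t := by
    rw [← (h c).lt_iff_lt, hq]
    exact nd2 t
  have hβ : β t < α q := by
    rw [← hq]
    exact nd1 q
  have k1 := (M.sideR hK dK h1 h2 (le_refl (β t)) (M.st.lt t) (M.st.hV _ hd t)
    (hβ.trans hn)).1 (nd2 t)
  have e1 : g (Γ.flip c) t ≤ lam q := M.c2 nd2 hq.symm
  obtain ⟨τ, σ, G, -⟩ := M.st.w1 d (M.KH d dK) sd
  obtain ⟨s₁, hs₁⟩ := β.surjective (min (h d t) (α t))
  have hts : t < s₁ := by
    rw [← β.lt_iff_lt, hs₁]
    exact lt_min (hβ.trans hn) (M.st.lt t)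
  have f5 : min (h d t) (α t) ≤ τ t := by
    by_cases h4 : d ∈ U
    · exact (min_le_right _ _).trans (G.τ_ge h4 t)
    · rw [G.τ_eq h4]
      exact min_le_left _ _
  have f1 : β s₁ < h d s₁ := by
    rw [hs₁]
    exact (min_le_left _ _).trans_lt ((h d).strictMono hts)
  have e2 : ρ s₁ ≤ g d t :=
    G.w1 t s₁ ⟨(M.st.hV _ hd s₁).trans_lt f1, (M.st.hV _ hd s₁).trans_lt (M.st.lt s₁), f1⟩
      ((G.σ_le hd s₁).trans (hs₁.le.trans f5))
  obtain ⟨s₂, hs₂⟩ := β.surjective (α q)
  have h5 : s₁ ≤ s₂ := by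
    rw [← ρ.le_iff_le, M.st.link q s₂ hs₂]
    exact e2.trans (k1.trans e1)
  have h6 : min (h d t) (α t) ≤ α q := by
    rw [← hs₁, ← hs₂]
    exact β.monotone h5
  rcases min_le_iff.mp h6 with h7 | h7
  · exact absurd h7 (not_le.mpr hn)
  · exact absurd h7 (not_le.mpr (α.strictMono hqt))

end Mv

end Pool.Agent.Helper89.TG
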