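import Mathlib
import Pool.Agent.Helper89.TG.Step

/-!
A diagram which reduces has no labels.
-/

set_option autoImplicit false

namespace Pool.Agent.Helper89.TG

open Pool.Agent.Helper42.Th Pool.Agent.Helper31.T3 Pool.Agent.Helper31.CUT
open Pool.Agent.Helper42.T5

section

variable {E : Type} [Finite E] {Γ : CMap E} {δ : E} {Ω₁ Ω₂ : Type*} [LinearOrder Ω₁]
  [LinearOrder Ω₂] {f : E → Ω₁} {g : E → Ω₂} {S : Set E}

omit [Finite E] in
lemma walk_total (L : WLevel Γ δ f S) {e e' a : E} (he : Cut Γ S e) (he' : Cut Γ S e')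
    (h1 : Walk Γ δ S e a) : Walk Γ δ S e' a → Walk Γ δ S e e' ∨ Walk Γ δ S e' e := by
  induction h1 with
  | refl => exact Or.inr
  | step a b hw hn hb ih =>
    intro h2
    cases h2 with
    | refl => exact Or.inl (Walk.step a _ hw hn hb)
    | step a₂ _ hw₂ hn₂ hb₂ =>
      have h3 := next_inj L.rot (hw.cut he) (hw₂.cut he') hn hn₂
      exact ih (h3 ▸ hw₂)

/-- Of two darts which leave a level set one is before the other. -/
theorem total (h : Harm Γ δ f g) (L : WLevel Γ δ f S) {e e' : E} (hee : e ≠ e')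
    (he : Cut Γ S e) (heδ : e ≠ δ) (hd : f (Γ.flip e) < f e)
    (he' : Cut Γ S e') (heδ' : e' ≠ δ) (hd' : f (Γ.flip e') < f e') :
    g e ≤ g (Γ.flip e') ∨ g e' ≤ g (Γ.flip e) := by
  obtain ⟨a, ha, hn⟩ := wlast h L he heδ hd
  obtain ⟨a', ha', hn'⟩ := wlast h L he' heδ' hd'
  have h1 := next_inj L.rot (ha.cut he) (ha'.cut he') hn hn'
  have key : ∀ {e e' : E}, e ≠ e' → Walk Γ δ S e e' → g e ≤ g (Γ.flip e') := by
    intro e e' hne hw
    cases hw with
    | refl => exact absurd rfl hne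
    | step a _ hw hn hb =>
      rw [hn.face g h.g_rot]
      exact wwalk_le h L hw
  rcases walk_total L he he' ha (h1 ▸ ha') with h2 | h2
  · exact Or.inl (key hee h2)
  · exact Or.inr (key (Ne.symm hee) h2)

omit [Finite E] in
/-- A walk from a set of vertices to its complement. -/
lemma Thru.cut {H : Set E} {d e : E} (h : Thru Γ H d e) (hS : ∀ d, Γ.rot d ∈ S ↔ d ∈ S) :
    d ∈ S → e ∉ S → ∃ e' ∈ H, Cut Γ S e' := by
  induction h with
  | refl d => exact fun h1 h2 => absurd h1 h2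
  | rot d e _ ih => exact fun h1 h2 => ih ((hS d).mpr h1) h2
  | pass d e hd _ ih =>
    intro h1 h2
    by_cases h3 : Γ.flip d ∈ S
    · exact ih h3 h2
    · exact ⟨d, hd, h1, h3⟩

end

section

variable {E : Type} {G : Type*} [Group G] {Γ : CMap E} {L : Lab G Γ} {δ : E} {U V H H' A S : Set E}
  {y c d : E}

/-- The path leaves the set. -/
lemma Fork.cut (F : Fork L δ y c d U V H H' A) (hS : ∀ d, Γ.rot d ∈ S ↔ d ∈ S)
    (hU : ∀ d ∈ U, d ∈ S) (hV : ∀ d ∈ V, d ∉ S) :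
    Cut Γ S y ∨ Cut Γ S c := by
  have h1 : (Γ.flip y ∈ S) = (c ∈ S) :=
    (same_eq (f := fun d => d ∈ S) (fun d => propext (hS d)) F.mid).symm
  by_cases h2 : c ∈ S
  · exact Or.inr ⟨h2, hV _ F.last.1⟩
  · exact Or.inl ⟨hU _ F.first.1, h1 ▸ h2⟩

/-- Two darts leave each set of vertices which contains `U`, and no vertex of `V`. -/
theorem Tongue.two {q : Bool} (T : Tongue L δ q U V H) : ∀ S : Set E,
    (∀ d, Γ.rot d ∈ S ↔ d ∈ S) → (∀ d ∈ U, d ∈ S) → (∀ d ∈ V, d ∉ S) →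
    ∀ z, ¬ (z ∈ U ∧ Γ.flip z ∈ V) → ∃ e ∈ H, Cut Γ S e ∧ e ≠ z := by
  have horb : ∀ {S : Set E} {a b : E}, (∀ d, Γ.rot d ∈ S ↔ d ∈ S) → Γ.rot.SameCycle a b →
      (b ∈ S ↔ a ∈ S) := fun hS hab =>
    iff_of_eq (same_eq (f := fun d => d ∈ _) (fun d => propext (hS d)) hab)
  induction T with
  | edge U V H e h1 h2 h3 h4 =>
    intro S hS hU hV z hz
    exact ⟨e, h1, ⟨hU _ h2, hV _ h3⟩, fun h => hz (h ▸ ⟨h2, h3⟩)⟩
  | pair U V H e h1 h2 h3 h4 d d' h5 h6 h7 =>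
    intro S hS hU hV z hz
    exact ⟨e, h1, ⟨hU _ h2, hV _ h3⟩, fun h => hz (h ▸ ⟨h2, h3⟩)⟩
  | top q U V H H' A y c d F h1 h2 h ih =>
    intro S hS hU hV z hz
    by_cases h3 : Γ.flip d ∈ S
    · have hU' : ∀ e ∈ U ∪ {e | Γ.rot.SameCycle (Γ.flip d) e}, e ∈ S := by
        rintro e (he | he)
        · exact hU e he
        · exact (horb hS he).mpr h3
      by_cases h4 : z ∈ U ∪ {e | Γ.rot.SameCycle (Γ.flip d) e} ∧ Γ.flip z ∈ V
      · have h5 : z ∉ U := fun h6 => hz ⟨h6, h4.2⟩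
        by_cases h6 : z = c
        · obtain ⟨e, he, hc, -⟩ := ih S hS hU' hV (Γ.flip c) fun h7 =>
            hV _ F.last.1 (hU' _ h7.1)
          exact ⟨e, F.sub he, hc, fun h7 => h2 (h6 ▸ h7 ▸ he)⟩
        · rcases F.cut hS hU hV with h7 | h7
          · exact ⟨y, F.mem.1, h7, fun h8 => h5 (h8 ▸ F.first.1)⟩
          · exact ⟨c, F.mem.2.1, h7, fun h8 => h6 h8.symm⟩
      · obtain ⟨e, he, hc, hne⟩ := ih S hS hU' hV z h4
        exact ⟨e, F.sub he, hc, hne⟩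
    · by_cases h4 : d = z
      · rcases F.cut hS hU hV with h7 | h7
        · exact ⟨y, F.mem.1, h7, fun h8 => F.ne.1 (h4.trans h8.symm)⟩
        · exact ⟨c, F.mem.2.1, h7, fun h8 => F.ne.2 (h4.trans h8.symm)⟩
      · exact ⟨d, F.mem.2.2, ⟨hU _ h1, h3⟩, h4⟩
  | bot q U V H H' A y c d F h1 h2 h ih =>
    intro S hS hU hV z hz
    by_cases h3 : d ∈ S
    · by_cases h4 : d = z
      · rcases F.cut hS hU hV with h7 | h7
        · exact ⟨y, F.mem.1, h7, fun h8 => F.ne.1 (h4.trans h8.symm)⟩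
        · exact ⟨c, F.mem.2.1, h7, fun h8 => F.ne.2 (h4.trans h8.symm)⟩
      · exact ⟨d, F.mem.2.2, ⟨h3, hV _ h1⟩, h4⟩
    · have hV' : ∀ e ∈ V ∪ {e | Γ.rot.SameCycle d e}, e ∉ S := by
        rintro e (he | he)
        · exact hV e he
        · exact fun h4 => h3 ((horb hS he).mp h4)
      by_cases h4 : z ∈ U ∧ Γ.flip z ∈ V ∪ {e | Γ.rot.SameCycle d e}
      · have h5 : Γ.flip z ∉ V := fun h6 => hz ⟨h4.1, h6⟩
        by_cases h6 : z = y
        · obtain ⟨e, he, hc, -⟩ := ih S hS hU hV' (Γ.flip y) fun h7 => by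
            have h8 := h7.2
            rw [Γ.flip_flip] at h8
            exact hV' _ h8 (hU _ F.first.1)
          exact ⟨e, F.sub he, hc, fun h7 => h2 (h6 ▸ h7 ▸ he)⟩
        · rcases F.cut hS hU hV with h7 | h7
          · exact ⟨y, F.mem.1, h7, fun h8 => h6 h8.symm⟩
          · exact ⟨c, F.mem.2.1, h7, fun h8 => h5 (h8 ▸ F.last.1)⟩
      · obtain ⟨e, he, hc, hne⟩ := ih S hS hU hV' z h4
        exact ⟨e, F.sub he, hc, hne⟩

/-- Another dart leaves the set, after the dart `d` is added at the top. -/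
lemma alt_top {q : Bool} (F : Fork L δ y c d U V H H' A) (h1 : d ∈ U) (h2 : c ∉ H')
    (T : Tongue L δ q (U ∪ {e | Γ.rot.SameCycle (Γ.flip d) e}) V H')
    (hS : ∀ d, Γ.rot d ∈ S ↔ d ∈ S) (hU : ∀ d ∈ U, d ∈ S) (hV : ∀ d ∈ V, d ∉ S) :
    ∃ e ∈ insert d H', Cut Γ S e ∧ e ≠ y ∧ e ≠ c := by
  by_cases h3 : Γ.flip d ∈ S
  · have hU' : ∀ e ∈ U ∪ {e | Γ.rot.SameCycle (Γ.flip d) e}, e ∈ S := by
      rintro e (he | he)
      · exact hU e he
      · have h4 : (e ∈ S) = (Γ.flip d ∈ S) :=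
          same_eq (f := fun d => d ∈ S) (fun d => propext (hS d)) he
        exact h4 ▸ h3
    obtain ⟨e, he, hc, hne⟩ := T.two S hS hU' hV y fun h4 => F.first.2 h4.2
    exact ⟨e, Or.inr he, hc, hne, fun h4 => h2 (h4 ▸ he)⟩
  · exact ⟨d, Or.inl rfl, ⟨hU _ h1, h3⟩, F.ne.1, F.ne.2⟩

/-- Another dart leaves the set, after the dart `d` is added at the bottom. -/
lemma alt_bot {q : Bool} (F : Fork L δ y c d U V H H' A) (h1 : Γ.flip d ∈ V) (h2 : y ∉ H')
    (T : Tongue L δ q U (V ∪ {e | Γ.rot.SameCycle d e}) H')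
    (hS : ∀ d, Γ.rot d ∈ S ↔ d ∈ S) (hU : ∀ d ∈ U, d ∈ S) (hV : ∀ d ∈ V, d ∉ S) :
    ∃ e ∈ insert d H', Cut Γ S e ∧ e ≠ y ∧ e ≠ c := by
  by_cases h3 : d ∈ S
  · exact ⟨d, Or.inl rfl, ⟨h3, hV _ h1⟩, F.ne.1, F.ne.2⟩
  · have hV' : ∀ e ∈ V ∪ {e | Γ.rot.SameCycle d e}, e ∉ S := by
      rintro e (he | he)
      · exact hV e he
      · have h4 : (e ∈ S) = (d ∈ S) :=
          same_eq (f := fun d => d ∈ S) (fun d => propext (hS d)) he
        exact h4 ▸ h3
    obtain ⟨e, he, hc, hne⟩ := T.two S hS hU hV' c fun h4 => F.last.2 h4.1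
    exact ⟨e, Or.inr he, hc, fun h4 => h2 (h4 ▸ he), hne⟩

end

variable {E : Type} {G : Type*} [Group G] {J : Type*} [LinearOrder J]

variable {Γ : CMap E} {L : Lab G Γ} {δ : E} {h g : E → J ≃o J} {U V H H' A Z : Set E}
  {α β ρ lam : J ≃o J} {y c d : E}

lemma stage_mono (St : Stage Γ δ h g U V H α β ρ lam Z) {Z₂ : Set E}
    (hz : ∀ e ∈ H, Sq Γ h g e → e ∈ Z → e ∉ Z₂ → e ∈ U → False) :
    Stage Γ δ h g U V H α β ρ lam Z₂ := by
  refine ⟨St.harm, St.dU, St.dV, St.ne, St.lt, St.link, St.hU, St.hV, St.w0, fun e he sq => ?_⟩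
  obtain ⟨τ, σ, G, hst⟩ := St.w1 e he sq
  refine ⟨τ, σ, G, fun h1 h2 => ?_⟩
  by_cases h3 : e ∈ Z
  · exact (hz e he sq h3 h1 h2).elim
  · exact hst h3 h2

lemma Fork.mv (F : Fork L δ y c d U V H H' A) (St : Stage Γ δ h g U V H α β ρ lam Z)
    (sq : ∀ e, L.Within e 1 → Sq Γ h g e)
    (alt : ∀ S : Set E, (∀ d, Γ.rot d ∈ S ↔ d ∈ S) → (∀ d ∈ U, d ∈ S) → (∀ d ∈ V, d ∉ S) →
      ∃ e ∈ insert d H', Cut Γ S e ∧ e ≠ y ∧ e ≠ c) :
    Mv Γ δ h g U V H α β ρ lam Z y c A (insert d H') where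
  st := St
  pth := ⟨F.first.1, F.mid, F.last.1, F.curve⟩
  yH := F.mem.1
  cH := F.mem.2.1
  sy := sq _ F.slope.1
  sc := sq _ F.slope.2.1
  hy := F.first.2
  hc := F.last.2
  KH := by
    rintro e (he | he)
    · exact he ▸ F.mem.2.2
    · exact F.sub he
  alt := alt

variable [Finite E]

/-- There is no other dart which leads from the top to the new vertex. -/
lemma Mv.flagL {K : Set E} (M : Mv Γ δ h g U V H α β ρ lam Z y c A K) (hK : OnL Γ y c A K)
    [Nonempty J] {e : E} (he : e ∈ K) (h1 : e ≠ y) (h2 : e ≠ c) (hy : y ∉ Z) (sq : Sq Γ h g e)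
    (hU : e ∈ U) (hw : ∀ s, h (Γ.flip e) s ≤ β ((h c).symm (α s))) : False := by
  have nd1 := M.ndL1 hK
  have nd2 := M.ndL2 hK
  have hP : ∀ t, h c ((h c).symm (α t)) = α t := fun t => (h c).apply_symm_apply _
  have hα : ∀ t, β ((h c).symm (α t)) < α t := fun t => by
    conv_rhs => rw [← hP t]
    exact nd2 _
  have hlt : ∀ t, β t < β ((h c).symm (α t)) := fun t => by
    apply β.strictMono
    rw [← (h c).lt_iff_lt, hP]
    exact nd1 t
  obtain ⟨s⟩ := ‹Nonempty J›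
  obtain ⟨t, ht⟩ := α.surjective (β ((h c).symm (α s)))
  obtain ⟨τ, σ, G, -⟩ := M.st.w1 e (M.KH e he) sq
  have e1 : g (Γ.flip e) s ≤ lam t := by
    refine G.w2 t s ⟨?_, ?_, ?_⟩ ?_
    · exact (hw t).trans_lt ((hα t).trans_le (M.st.hU e hU t))
    · exact (hw t).trans_lt (hα t)
    · exact (M.st.lt t).trans_le (M.st.hU e hU t)
    · refine le_trans ?_ (ht.ge.trans (G.τ_ge hU t))
      by_cases h4 : Γ.flip e ∈ V
      · exact (G.σ_le h4 s).trans (hlt s).le
      · rw [G.σ_eq h4 s]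
        exact hw s
  have hℓ : max (max (h (Γ.flip e) s) (β s)) (h c s) < α s :=
    max_lt (max_lt ((hw s).trans_lt (hα s)) (M.st.lt s)) (nd1 s)
  have e2 := (M.sideL hK he h1 h2 ((le_max_right _ _).trans (le_max_left _ _)) hℓ
    ((le_max_left _ _).trans (le_max_left _ _)) (hℓ.trans_le (M.st.hU e hU s))).2
    (le_max_right _ _)
  obtain ⟨τ', t1, t2, t3, t4, -⟩ := M.gy
  obtain ⟨p, hp⟩ := (h c).surjective (τ' s)
  have e3 : ρ p ≤ g y s := t4 s p (nd1 p) hp.le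
  have hpp : (h c).symm (α s) < p := by
    rw [← (h c).lt_iff_lt, hP, hp]
    exact t2 hy s
  have e4 := M.st.link t ((h c).symm (α s)) ht.symm
  exact absurd (e3.trans (e2.trans e1)) (not_le.mpr (e4 ▸ ρ.strictMono hpp))

/-- There is no other dart which leads from the top to the new vertex. -/
lemma Mv.flagR {K : Set E} (M : Mv Γ δ h g U V H α β ρ lam Z y c A K) (hK : OnR Γ y c A K)
    [Nonempty J] {e : E} (he : e ∈ K) (h1 : e ≠ y) (h2 : e ≠ c) (hy : y ∉ Z) (sq : Sq Γ h g e)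
    (hU : e ∈ U) (hw : ∀ s, h (Γ.flip e) s ≤ α ((h c).symm (β s))) : False := by
  have nd1 := M.ndR1 hK
  have nd2 := M.ndR2 hK
  have hQ : ∀ t, h c ((h c).symm (β t)) = β t := fun t => (h c).apply_symm_apply _
  have hP : ∀ t, α (α.symm (h c t)) = h c t := fun t => α.apply_symm_apply _
  have hα : ∀ t, α ((h c).symm (β t)) < α t := fun t => by
    apply α.strictMono
    rw [← (h c).lt_iff_lt, hQ]
    exact nd2 t
  obtain ⟨s⟩ := ‹Nonempty J›
  obtain ⟨s', hs'⟩ := β.surjective (h c s)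
  have hss : s < s' := by
    rw [← β.lt_iff_lt, hs']
    exact nd2 s
  have hws : h (Γ.flip e) s' ≤ α s := by
    refine (hw s').trans_eq ?_
    rw [hs', (h c).symm_apply_apply]
  obtain ⟨τ, σ, G, -⟩ := M.st.w1 e (M.KH e he) sq
  have e1 : ρ s' ≤ g e s := by
    refine G.w1 s s' ⟨?_, ?_, ?_⟩ ?_
    · exact hws.trans_lt ((α.strictMono hss).trans_le (M.st.hU e hU s'))
    · exact hws.trans_lt (α.strictMono hss)
    · exact (M.st.lt s').trans_le (M.st.hU e hU s')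
    · refine le_trans ?_ (G.τ_ge hU s)
      by_cases h4 : Γ.flip e ∈ V
      · refine (G.σ_le h4 s').trans ?_
        rw [hs']
        exact (nd1 s).le
      · rw [G.σ_eq h4 s']
        exact hws
  have hℓ : max (max (h (Γ.flip e) s) (β s)) (h c s) < α s :=
    max_lt (max_lt ((hw s).trans_lt (hα s)) (M.st.lt s)) (nd1 s)
  have e2 := (M.sideR hK he h1 h2 ((le_max_right _ _).trans (le_max_left _ _)) hℓ
    ((le_max_left _ _).trans (le_max_left _ _)) (hℓ.trans_le (M.st.hU e hU s))).2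
    (le_max_right _ _)
  obtain ⟨τ', t1, t2, t3, -, t4⟩ := M.gy
  obtain ⟨r, hr⟩ := τ'.surjective (h c s)
  have e3 : g (Γ.flip y) s ≤ lam r := t4 r s (nd1 r) hr.ge
  have hrr : r < α.symm (h c s) := by
    rw [← τ'.lt_iff_lt, hr]
    conv_lhs => rw [← hP s]
    exact t2 hy _
  have e4 := M.st.link (α.symm (h c s)) s' (hs'.trans (hP s).symm)
  exact absurd (e1.trans (e2.trans e3)) (not_le.mpr (e4 ▸ lam.strictMono hrr))

/-- A diagram which reduces has no labels. -/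
theorem Tongue.no_labels [Nonempty J] (sq : ∀ e, L.Within e 1 → Sq Γ h g e) {q : Bool}
    (T : Tongue L δ q U V H) : ∀ {α β ρ lam : J ≃o J} {Z : Set E},
    Stage Γ δ h g U V H α β ρ lam Z →
    (q = true → (∀ e ∈ Z, ∀ e' ∈ Z, e = e') ∧ ∀ e ∈ Z, Γ.flip e ∉ V) → False := by
  induction T with
  | edge U V H e h1 h2 h3 h4 =>
    intro α β ρ lam Z St hz
    have heZ : e ∉ Z := fun h5 => (hz rfl).2 e h5 h3
    obtain ⟨τ, σ, G, hst⟩ := St.w1 e h1 (sq e h4)
    have hτ := hst heZ h2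
    have live : ∀ t, Live Γ h α β e t := fun t =>
      ⟨(St.hV _ h3 t).trans_lt ((St.lt t).trans_le (St.hU _ h2 t)),
        (St.hV _ h3 t).trans_lt (St.lt t), (St.lt t).trans_le (St.hU _ h2 t)⟩
    obtain ⟨t⟩ := ‹Nonempty J›
    obtain ⟨s', hs'⟩ := β.surjective (α t)
    obtain ⟨s, hs⟩ := σ.surjective (τ t)
    have h5 : s' < s := by
      rw [← σ.lt_iff_lt, hs]
      exact ((G.σ_le h3 s').trans hs'.le).trans_lt (hτ t)
    have h6 := G.w3 t s (live t) (live s) hs.le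
    rw [← St.link t s' hs'] at h6
    exact absurd h6 (not_le.mpr (ρ.strictMono h5))
  | pair U V H e h1 h2 h3 h4 d d' h5 h6 h7 =>
    intro α β ρ lam Z St hz
    obtain ⟨τ, σ, G, -⟩ := St.w1 e h1 (sq e h4)
    have live : ∀ t, Live Γ h α β e t := fun t =>
      ⟨(St.hV _ h3 t).trans_lt ((St.lt t).trans_le (St.hU _ h2 t)),
        (St.hV _ h3 t).trans_lt (St.lt t), (St.lt t).trans_le (St.hU _ h2 t)⟩
    obtain ⟨t⟩ := ‹Nonempty J›
    have L1 := lev1 St (le_refl (β t)) (St.lt t)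
    obtain ⟨e', he', hc'⟩ := h7.cut L1.rot ((St.lt t).trans_le (St.hU _ h5 t))
      (not_lt.mpr (St.hV _ h6 t))
    have hc : Cut Γ {d | β t < h d t} e :=
      ⟨(St.lt t).trans_le (St.hU _ h2 t), not_lt.mpr (St.hV _ h3 t)⟩
    have k1 : h (Γ.flip e') t ≤ β t := not_lt.mp hc'.2
    have k2 : β t < h e' t := hc'.1
    have w := St.w0 e' he'.1 t ⟨k1.trans_lt k2, k1.trans_lt (St.lt t), k2⟩
    -- the edge `e` fills the window
    have f1 : lam t ≤ g e t := by
      obtain ⟨s, hs⟩ := β.surjective (α t)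
      rw [← St.link t s hs]
      exact G.w1 t s (live s) ((G.σ_le h3 s).trans (hs.le.trans (G.τ_ge h2 t)))
    have f2 : g (Γ.flip e) t ≤ ρ t := by
      obtain ⟨s, hs⟩ := α.surjective (β t)
      rw [St.link s t hs.symm]
      exact G.w2 s t (live s) ((G.σ_le h3 t).trans (hs.ge.trans (G.τ_ge h2 s)))
    rcases total (St.harm t) L1 (Ne.symm he'.2) hc (St.ne e h1).1 (live t).1 hc'
      (St.ne e' he'.1).1 (k1.trans_lt k2) with h8 | h8
    · exact absurd (f1.trans h8) (not_le.mpr w.2)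
    · exact absurd (h8.trans f2) (not_le.mpr w.1)
  | top q U V H H' A y c d F h1 h2 T ih =>
    intro α β ρ lam Z St hz
    have M := F.mv St sq fun S hS hU hV => alt_top F h1 h2 T hS hU hV
    have hz₂ : (∀ e, e ∈ ({e | e = y ∨ (d ∈ Z ∧ y ∈ Z)} : Set E)) ∨ d ∉ Z ∨ y ∉ Z := by
      by_cases h3 : d ∈ Z
      · by_cases h4 : y ∈ Z
        · exact Or.inl fun e => Or.inr ⟨h3, h4⟩
        · exact Or.inr (Or.inr h4)
      · exact Or.inr (Or.inl h3)
    have hz' : q = true → (∀ e ∈ ({e | e = y ∨ (d ∈ Z ∧ y ∈ Z)} : Set E),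
        ∀ e' ∈ ({e | e = y ∨ (d ∈ Z ∧ y ∈ Z)} : Set E), e = e') ∧
        ∀ e ∈ ({e | e = y ∨ (d ∈ Z ∧ y ∈ Z)} : Set E), Γ.flip e ∉ V := by
      intro hq
      have h3 : ∀ e ∈ ({e | e = y ∨ (d ∈ Z ∧ y ∈ Z)} : Set E), e = y := by
        rintro e (he | he)
        · exact he
        · exact (F.ne.1 ((hz hq).1 d he.1 y he.2)).elim
      exact ⟨fun e he e' he' => (h3 e he).trans (h3 e' he').symm,
        fun e he => h3 e he ▸ F.first.2⟩
    rcases F.side with hK | hK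
    · exact ih (M.stepTL hK (Or.inl rfl) F.ne.1 F.ne.2 (sq d F.slope.2.2) h1
        (fun e he => Or.inr he) h2 (Or.inl rfl) (hz₂.imp_right fun h3 => h3.imp_right Or.inl)) hz'
    · exact ih (M.stepTR hK (Or.inl rfl) F.ne.1 F.ne.2 (sq d F.slope.2.2) h1
        (fun e he => Or.inr he) h2 (Or.inl rfl) (hz₂.imp_right fun h3 => h3.imp_right Or.inl)) hz'
  | bot q U V H H' A y c d F h1 h2 T ih =>
    intro α β ρ lam Z St hz
    have M := F.mv St sq fun S hS hU hV => alt_bot F h1 h2 T hS hU hV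
    rcases F.side with hK | hK
    · have St' := M.stepBL hK (Or.inl rfl) F.ne.1 F.ne.2 (sq d F.slope.2.2) h1
        (fun e he => Or.inr he) h2
      by_cases hq : q = true
      · refine ih (Z := {e | e ∈ Z ∧ Γ.flip e ∉ V ∪ {e | Γ.rot.SameCycle d e}})
          (stage_mono St' ?_) ?_
        · intro e he sq' h3 h4 h5
          have hey : e ≠ y := fun h6 => h2 (h6 ▸ he)
          have hw : Γ.flip e ∈ V ∪ {e | Γ.rot.SameCycle d e} := by
            by_contra h6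
            exact h4 ⟨h3, h6⟩
          exact M.flagL hK (Or.inr he) hey (fun h6 => F.last.2 (h6 ▸ h5))
            (fun h6 => hey ((hz hq).1 e h3 y h6)) sq' h5 fun s => St'.hV _ hw s
        · exact fun _ => ⟨fun e he e' he' => (hz hq).1 e he.1 e' he'.1, fun e he => he.2⟩
      · exact ih St' fun h3 => (hq h3).elim
    · have St' := M.stepBR hK (Or.inl rfl) F.ne.1 F.ne.2 (sq d F.slope.2.2) h1
        (fun e he => Or.inr he) h2
      by_cases hq : q = true
      · refine ih (Z := {e | e ∈ Z ∧ Γ.flip e ∉ V ∪ {e | Γ.rot.SameCycle d e}})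
          (stage_mono St' ?_) ?_
        · intro e he sq' h3 h4 h5
          have hey : e ≠ y := fun h6 => h2 (h6 ▸ he)
          have hw : Γ.flip e ∈ V ∪ {e | Γ.rot.SameCycle d e} := by
            by_contra h6
            exact h4 ⟨h3, h6⟩
          exact M.flagR hK (Or.inr he) hey (fun h6 => F.last.2 (h6 ▸ h5))
            (fun h6 => hey ((hz hq).1 e h3 y h6)) sq' h5 fun s => St'.hV _ hw s
        · exact fun _ => ⟨fun e he e' he' => (hz hq).1 e he.1 e' he'.1, fun e he => he.2⟩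
      · exact ih St' fun h3 => (hq h3).elim

/-- A diagram has no labels if it reduces after a first step, at which the labels of the edges
from the top are apart. -/
theorem Tongue.no_labels_ext [Nonempty J] (sq : ∀ e, L.Within e 1 → Sq Γ h g e)
    (F : Fork L δ y c d U V H H' A) (h1 : d ∈ U) (h2 : c ∉ H')
    (T : Tongue L δ true (U ∪ {e | Γ.rot.SameCycle (Γ.flip d) e}) V H')
    (St : Stage Γ δ h g U V H α β ρ lam Z) (e1 : Ext Γ g ρ lam y d) (e2 : Ext Γ g ρ lam d y) :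
    False := by
  have M := F.mv St sq fun S hS hU hV => alt_top F h1 h2 T hS hU hV
  have hz : true = true → (∀ e ∈ ({y} : Set E), ∀ e' ∈ ({y} : Set E), e = e') ∧
      ∀ e ∈ ({y} : Set E), Γ.flip e ∉ V := by
    refine fun _ => ⟨fun e he e' he' => he.trans he'.symm, fun e he => ?_⟩
    rw [Set.mem_singleton_iff.mp he]
    exact F.first.2
  rcases F.side with hK | hK
  · exact T.no_labels sq (M.stepTL hK (Or.inl rfl) F.ne.1 F.ne.2 (sq d F.slope.2.2) h1
      (fun e he => Or.inr he) h2 (Set.mem_singleton y) (Or.inr (Or.inr (Or.inr e1)))) hz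
  · exact T.no_labels sq (M.stepTR hK (Or.inl rfl) F.ne.1 F.ne.2 (sq d F.slope.2.2) h1
      (fun e he => Or.inr he) h2 (Set.mem_singleton y) (Or.inr (Or.inr (Or.inr e2)))) hz

end Pool.Agent.Helper89.TG
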