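import Mathlib
import Pool.Agent.Helper42.TG.Main
import Pool.Agent.Helper89.TG.Zero

/-!
Diagrams with one negative crossing ball which reduce: the element of the negative edge does not
move up.
-/

set_option autoImplicit false

namespace Pool.Agent.Helper89.TG

open Pool.Agent.Helper42.Th Pool.Agent.Helper31.T3 Pool.Agent.Helper31.CUT

variable {E : Type} {G : Type*} [Group G] {Γ : CMap E} {L : Lab G Γ} {δ : E}
  {Ω : Type*} [CompleteLinearOrder Ω] {ρ : G →* (Ω ≃o Ω)} {a b : Ω ≃o Ω} {k : ℕ} {z₀ : Ω}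
  [Finite E]

/-- The labels of the edges from the start of `δ`. -/
lemma fan_le (S : Sys Γ δ (lx L ρ) (ly L ρ) a b k) (h0 : z₀ < a z₀) {l l' : ℕ} (hl : l < l')
    (hn : ∀ m, 0 < m → m ≤ l' → (Γ.rot ^ m) δ ≠ δ) (t : {z // Reg a z₀ z}) :
    fac S h0 ((Γ.rot ^ l) δ) t ≤ fac S h0 (Γ.flip ((Γ.rot ^ l') δ)) t := by
  obtain ⟨n, rfl⟩ : ∃ n, l' = n + 1 := ⟨l' - 1, by omega⟩
  rw [fac_le, S.Y_flip]
  exact S.first_mono (reg_lt h0 t.2).le (by omega) fun m h1 h2 => hn m h1 (by omega)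

/-- The labels of the edges are apart if there is a third edge. -/
theorem ext_third (S : Sys Γ δ (lx L ρ) (ly L ρ) a b k) (h0 : z₀ < a z₀) {i j : ℕ} (hij : i ≠ j) (hn : ∀ l, 0 < l → l ≤ i ∨ l ≤ j → (Γ.rot ^ l) δ ≠ δ)
    (ht : Γ.Third δ {i, j}) :
    Ext Γ (fac S h0) 1 (bJ S h0) ((Γ.rot ^ i) δ) ((Γ.rot ^ j) δ) := by
  rcases Nat.lt_or_gt_of_ne hij with h1 | h1
  · obtain ⟨m, hm, hmij, hnm, haw⟩ := ht
    have hmi : m ≠ i := fun h => hmij (Or.inl h)
    have hmj : m ≠ j := fun h => hmij (Or.inr h)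
    -- the third edge has a positive flow
    have key : ∀ t, fac S h0 (Γ.flip ((Γ.rot ^ m) δ)) t < fac S h0 ((Γ.rot ^ m) δ) t := by
      intro t
      have hz := reg_lt h0 t.2
      rw [fac_lt, ← not_le]
      intro h2
      have h3 : t.1 ≤ Sys.N Γ (ly L ρ) ((Γ.rot ^ m) δ) t.1 := S.first_ge hz.le hm hnm
      have h4 : Sys.N Γ (ly L ρ) ((Γ.rot ^ m) δ) t.1 ≤ t.1 := Sys.N_le.mpr h2
      exact hz.ne' (third_fix L ρ S (hnm m hm le_rfl) haw hz.le le_rfl (S.b_ge hz.le)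
        (le_antisymm h4 h3))
    rcases Nat.lt_or_gt_of_ne hmi with h2 | h2
    · refine Or.inl fun t => ?_
      exact (le_facJ S h0 _ t).trans_lt ((key t).trans_le
        (fan_le S h0 h2 (fun l h3 h4 => hn l h3 (Or.inl h4)) t))
    rcases Nat.lt_or_gt_of_ne hmj with h3 | h3
    · refine Or.inr (Or.inl fun t => ?_)
      exact (fan_le S h0 h2 hnm t).trans_lt ((key t).trans_le
        (fan_le S h0 h3 (fun l h4 h5 => hn l h4 (Or.inr h5)) t))
    · refine Or.inr (Or.inr (Or.inl fun t => ?_))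
      exact (fan_le S h0 h3 hnm t).trans_lt ((key t).trans_le (fac_leJ S h0 _ t))
  · exact Or.inr (Or.inr (Or.inr fun t => fan_le S h0 h1 (fun l h2 h3 => hn l h2 (Or.inl h3)) t))

/-- The element of the negative edge does not move up. -/
theorem fix_of_reduces {s : Bool} {k₁ k₂ : ℕ}
    (S : Sys Γ δ (lx L ρ) (ly L ρ) a b (k₁ + k₂ + 1)) (h : Reduces L δ s k₁ k₂)
    (hs : s = true → ∀ z, z ≤ a z → a z = (b ^ (k₁ + k₂ + 1)) z → a z = z) {z : Ω}
    (hz : z ≤ a z) : a z = z := by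
  by_contra hne
  have h0 : z < a z := lt_of_le_of_ne hz (Ne.symm hne)
  have : Nonempty {w // Reg a z w} := ⟨⟨z, reg_self a z⟩⟩
  have sq : ∀ e, L.Within e 1 → Sq Γ (hgt S h0) (fac S h0) e := fun e he =>
    sqJ S h0 (slope_of_within ρ he)
  cases h with
  | strict _ _ H hH q hq T =>
    have hcut : ∀ W : Set E, (∀ d, Γ.rot d ∈ W ↔ d ∈ W) → (∀ d ∈ Upper L δ k₁, d ∈ W) →
        (∀ d ∈ Lower L δ k₂, d ∉ W) → ∃ e ∈ H, Cut Γ W e := by
      intro W hW hU hV
      obtain ⟨e, he, hc, -⟩ := T.two W hW hU hV (Γ.flip δ) fun h1 =>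
        hV _ ⟨0, Nat.zero_le _, Lab.Walk.refl _⟩ (hU _ h1.1)
      exact ⟨e, he, hc⟩
    have hb := b_gt S h0 hH hcut
    cases q with
    | false =>
      exact T.no_labels sq (stage_zero S h0 (Z := Set.univ) hH rfl hb
        (Or.inl fun e => Set.mem_univ e)) fun h1 => absurd h1 Bool.false_ne_true
    | true =>
      refine T.no_labels sq (stage_zero S h0 (Z := ∅) hH rfl hb (Or.inr fun t => ?_)) fun _ =>
        ⟨fun e he => absurd he (Set.notMem_empty e), fun e he => absurd he (Set.notMem_empty e)⟩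
      refine lt_of_le_of_ne (up_powJ S h0 t) fun h1 => ?_
      have h2 : a t.1 = (b ^ (k₁ + k₂ + 1)) t.1 := by
        rw [← bJ_pow S h0]
        exact (congrArg Subtype.val h1).symm
      exact (reg_lt h0 t.2).ne' (hs (hq rfl) t.1 (reg_lt h0 t.2).le h2)
  | third _ H H' A hH c i j F hn h2 ht T =>
    have hd : (Γ.rot ^ j) δ ∈ Upper L δ 0 := by
      refine ⟨0, le_rfl, ?_⟩
      have key : ∀ n : ℕ, ∀ e, L.Walk δ e ((Γ.rot ^ n) e) 0 := by
        intro n
        induction n with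
        | zero => exact fun e => Lab.Walk.refl e
        | succ n ih =>
          intro e
          rw [pow_succ, Equiv.Perm.mul_apply]
          exact Lab.Walk.rot _ _ _ (ih _)
      exact key j δ
    have hcut : ∀ W : Set E, (∀ d, Γ.rot d ∈ W ↔ d ∈ W) → (∀ d ∈ Upper L δ 0, d ∈ W) →
        (∀ d ∈ Lower L δ k₂, d ∉ W) → ∃ e ∈ H, Cut Γ W e := by
      intro W hW hU hV
      obtain ⟨e, he, hc, -⟩ := alt_top F hd h2 T hW hU hV
      refine ⟨e, ?_, hc⟩
      rcases he with he | he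
      · exact he ▸ F.mem.2.2
      · exact F.sub he
    have hb := b_gt S h0 hH hcut
    have hij : i ≠ j := fun h1 => F.ne.1 (by rw [h1])
    exact Tongue.no_labels_ext sq F hd h2 T (stage_zero S h0 (Z := Set.univ) hH rfl hb
      (Or.inl fun e => Set.mem_univ e)) (ext_third S h0 hij hn ht)
      (ext_third S h0 hij.symm (fun l h1 h3 => hn l h1 h3.symm) (by
        rw [Set.pair_comm]
        exact ht))

universe u

/-- The main theorem. -/
theorem main {E : Type} [Finite E] {G : Type u} [Group G] (Γ : CMap E) (L : Lab G Γ) (δ : E)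
    (P : Set E) (F : E → Set G) (F₀ : Set G) (k₁ k₂ : ℕ) (s : Bool)
    (hP : ∀ d, d ≠ δ → d ≠ Γ.flip δ → d ∈ P ∨ Γ.flip d ∈ P)
    (hpos : ∀ d ∈ P, Fill true 0 (L.M d) (L.D d) (F d))
    (hneg : Fill s (k₁ + k₂ + 1) (L.D δ) (L.M δ)⁻¹ F₀) (h : Reduces L δ s k₁ k₂)
    (hgen : Subgroup.closure ((L.elts ∪ ⋃ d ∈ P, F d) ∪ F₀) = ⊤) :
    ¬ (Nontrivial G ∧ ∃ _ : LinearOrder G, ∀ f g h : G, g ≤ h → f * g ≤ f * h) :=
  Pool.Agent.Helper42.TG.main Γ L δ P F F₀ k₁ k₂ s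
    (fun Ω _ ρ a b S hr hs z hz => fix_of_reduces S hr hs hz) hP hpos hneg h hgen

end Pool.Agent.Helper89.TG
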